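import Mathlib
import Pool.Agent.Lib.MP_fd1949_A.MainA

/-!
# MP_fd1949_co, Q1 for almost convex, weakly modular and hyperbolic graphs

The definitions `Near`, `Far`, `IsFatMinor`, `FatMinorFree`, `Disj`, `Bdd`, `AsdimWith` are in
`Pool/Agent/Lib/MP_fd1949_co/Defs.lean`; `NearN G n x y` (the distance of `x` and `y` is at most `n`)
is in `Pool/Agent/Lib/MP_fd1949_P/Base.lean`; `Rooted`, `Fill`, `Modular` are in
`Pool/Agent/Lib/MP_fd1949_A/PubA.lean`, and `FourPoint δ G` (Gromov's four point condition with
constant `δ`) is in `Pool/Agent/Lib/MP_fd1949_C/Pub.lean`.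
-/

namespace Pool.Agent.Results.MP_fd1949_co.AlmostConvexFat

open Pool.Agent.MP_fd1949_co Pool.Agent.MP_fd1949_A Pool.Agent.MP_fd1949_C

/-- Let `H` be a finite graph, let `N`, `E` be functions with `2 * E i + 3 ≤ i` for at least one `i`,
and let `δ` be a number. Consider the finite graphs which are `δ`-hyperbolic, or satisfy the triangle
and quadrangle conditions with respect to one vertex of each component (for example weakly modular
graphs), or have one vertex `o` in each component such that for all `i` any two vertices at the same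
distance `n` from `o` and at distance at most `i` from each other are joined by a walk of length at
most `N i` in the ball of radius `n + E i` around `o`. For every `q ≥ 1` the class of these graphs
without `q`-fat `H`-minor has asymptotic dimension at most `2`. If `N` grows at most linearly and `E`
is bounded then there is a control function `C * (r + q)`, with `C` independent of `q`. -/
theorem result (N E : ℕ → ℕ) (hE : ∃ i, 2 * E i + 3 ≤ i) (δ : ℕ) (W : Type) [Finite W]
    (H : SimpleGraph W) : ∃ D : ℕ → ℝ → ℝ,
    (∀ q : ℕ, 1 ≤ q → AsdimWith (fun _ G =>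
      ((∃ o, Rooted G o ∧ (Modular G o ∨ ∀ i, Fill G o i (N i) (E i))) ∨ FourPoint δ G) ∧
        FatMinorFree G H q) 2 (D q)) ∧
    ((∃ c, ∀ i, N i ≤ c * (i + 1) ∧ E i ≤ c) → ∃ C : ℝ, ∀ q : ℕ, 1 ≤ q → ∀ r : ℝ, 0 < r →
      D q r ≤ C * (r + q)) :=
  main N E hE δ W H (Or.inl rfl)

end Pool.Agent.Results.MP_fd1949_co.AlmostConvexFat
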