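import Mathlib
import Pool.Agent.Lib.MP_fd1949_A.MainA

/-!
# MP_fd1949_co, planar H in almost convex, weakly modular and hyperbolic graphs

The definitions `Near`, `Far`, `IsFatMinor`, `FatMinorFree`, `Disj`, `Bdd`, `AsdimWith` are in
`Pool/Agent/Lib/MP_fd1949_co/Defs.lean`; `grid`, `GridMinor` are in
`Pool/Agent/Lib/MP_fd1949_P/GridDef.lean`; `NearN G n x y` (the distance of `x` and `y` is at most
`n`) is in `Pool/Agent/Lib/MP_fd1949_P/Base.lean`; `Rooted`, `Fill`, `Modular` are in
`Pool/Agent/Lib/MP_fd1949_A/PubA.lean`, and `FourPoint δ G` (Gromov's four point condition with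
constant `δ`) is in `Pool/Agent/Lib/MP_fd1949_C/Pub.lean`.
-/

namespace Pool.Agent.Results.MP_fd1949_co.AlmostConvexPlanar

open Pool.Agent.MP_fd1949_co Pool.Agent.MP_fd1949_P Pool.Agent.MP_fd1949_A Pool.Agent.MP_fd1949_C

/-- Let `H` be a finite planar graph (a minor of a grid), let `N`, `E` be functions with
`2 * E i + 3 ≤ i` for at least one `i`, and let `δ` be a number. Consider the finite graphs which are
`δ`-hyperbolic, or satisfy the triangle and quadrangle conditions with respect to one vertex of each
component (for example weakly modular graphs), or have one vertex `o` in each component such that for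
all `i` any two vertices at the same distance `n` from `o` and at distance at most `i` from each
other are joined by a walk of length at most `N i` in the ball of radius `n + E i` around `o`. For
every `q ≥ 1` the class of these graphs without `q`-fat `H`-minor has asymptotic dimension at most
`1`. If `N` grows at most linearly and `E` is bounded then there is a control function
`C * (r + q)`, with `C` independent of `q`. -/
theorem result (N E : ℕ → ℕ) (hE : ∃ i, 2 * E i + 3 ≤ i) (δ : ℕ) (W : Type) [Finite W]
    (H : SimpleGraph W) (hH : GridMinor H) : ∃ D : ℕ → ℝ → ℝ,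
    (∀ q : ℕ, 1 ≤ q → AsdimWith (fun _ G =>
      ((∃ o, Rooted G o ∧ (Modular G o ∨ ∀ i, Fill G o i (N i) (E i))) ∨ FourPoint δ G) ∧
        FatMinorFree G H q) 1 (D q)) ∧
    ((∃ c, ∀ i, N i ≤ c * (i + 1) ∧ E i ≤ c) → ∃ C : ℝ, ∀ q : ℕ, 1 ≤ q → ∀ r : ℝ, 0 < r →
      D q r ≤ C * (r + q)) :=
  main N E hE δ W H (Or.inr ⟨rfl, hH⟩)

end Pool.Agent.Results.MP_fd1949_co.AlmostConvexPlanar
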