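import Mathlib
import Pool.Agent.Lib.MP_fd1949_co.Main

/-!
# MP_fd1949_co, Q1 for doubling graphs

The definitions (`Near`, `Far`, `IsFatMinor`, `FatMinorFree`, `DoublingFrom`, `Disj`, `Bdd`,
`AsdimWith`) are in `Pool/Agent/Lib/MP_fd1949_co/Defs.lean`.
-/

namespace Pool.Agent.Results.MP_fd1949_co.DoublingFat

open Pool.Agent.MP_fd1949_co

/-- For all `q`, `H` and every doubling constant `K`, the class of finite graphs that have no
`q`-fat `H`-minor and are doubling with constant `K` from some scale `R₀` on has asymptotic
dimension at most `2`, with a control function of linear growth. -/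
theorem result (q : ℕ) (W : Type) [Finite W] (H : SimpleGraph W) (K : ℕ) (R₀ : ℝ) :
    ∃ C : ℝ, 0 < C ∧ AsdimWith (fun _ G => FatMinorFree G H q ∧ DoublingFrom G K R₀) 2
      (fun r => C * (r + 1)) :=
  doubling_asdim q H K R₀

end Pool.Agent.Results.MP_fd1949_co.DoublingFat
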