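import Mathlib
import Pool.Agent.Lib.MP_fd1949_P.Final

/-!
# MP_fd1949_co, Q1 for planar graphs: finiteness with a bound that does not depend on q

The definitions (`Near`, `Far`, `IsFatMinor`, `FatMinorFree`, `Disj`, `Bdd`, `AsdimWith`) are in
`Pool/Agent/Lib/MP_fd1949_co/Defs.lean`. `grid k` is the box product of two paths with `k` vertices,
and `GridMinor H` says that `H` is a minor of some `grid k` (both in
`Pool/Agent/Lib/MP_fd1949_P/GridDef.lean`); the graphs with this property are the finite planar
graphs.
-/

namespace Pool.Agent.Results.MP_fd1949_co.PlanarFat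

open Pool.Agent.MP_fd1949_co Pool.Agent.MP_fd1949_P

/-- For every graph `H` that is a minor of some `k × k` grid there are `d` and `C` such that for
every `q ≥ 1` and every `r > 0` every finite graph without a `q`-fat `H`-minor is covered by `d + 1`
families, each `r`-disjoint and `C * (r + q)`-bounded. In particular, the class of graphs without
`q`-fat `H`-minor has asymptotic dimension at most `d`, with the same `d` for all `q`. -/
theorem result (W : Type) (H : SimpleGraph W) (hH : GridMinor H) :
    ∃ (d : ℕ) (C : ℝ), 0 < C ∧ ∀ q : ℕ, 1 ≤ q →
      AsdimWith (fun _ G => FatMinorFree G H q) d (fun r => C * (r + q)) :=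
  planar_asdim H hH

end Pool.Agent.Results.MP_fd1949_co.PlanarFat
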